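import Mathlib

/-!
# The sign conjecture and the Lefschetz standard conjecture in characteristic p: definitions
-/

set_option autoImplicit false

namespace Pool.Agent.H64.CB

open Matrix

/-- The data of a Weil cohomology for all smooth projective varieties over the fields
`F 0 ⊂ F 1 ⊂ …`, where `F n` is the algebraic closure of the field of rational functions in `n`
variables over the prime field, in chosen homogeneous bases:

* `Var n`: the smooth projective connected varieties over `F n`; `dim`: the dimension;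
* `rk X`: the dimension of the total cohomology `H(X)`, which is identified with `K ^ rk X` by a
  basis of homogeneous elements; `deg X a`: the degree of the basis element `a`;
* `alg X r`: the classes in `H^(2r)(X)` of the cycles of codimension `r` on `X`, with rational
  coefficients;
* `cyc X Y r`: the maps `H(X) → H(Y)`, of degree `2r`, which are induced by the cycles with
  rational coefficients on `X × Y`;
* `Lef X`: the products with the classes of the ample line bundles on `X`;
* `prod X Y`: the product; `pr X Y`: the Künneth formula `H(X) ⊗ H(Y) = H(X × Y)`. -/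
structure Data (K : Type) [Field K] [CharZero K] where
  Var : ℕ → Type
  dim : ∀ {n : ℕ}, Var n → ℕ
  rk : ∀ {n : ℕ}, Var n → ℕ
  deg : ∀ {n : ℕ} (X : Var n), Fin (rk X) → ℕ
  alg : ∀ {n : ℕ} (X : Var n), ℤ → Submodule ℚ (Fin (rk X) → K)
  cyc : ∀ {n : ℕ} (X Y : Var n), ℤ → Submodule ℚ (Matrix (Fin (rk Y)) (Fin (rk X)) K)
  Lef : ∀ {n : ℕ} (X : Var n), Set (Matrix (Fin (rk X)) (Fin (rk X)) K)
  prod : ∀ {n : ℕ}, Var n → Var n → Var n
  pr : ∀ {n : ℕ} (X Y : Var n), Fin (rk X) × Fin (rk Y) ≃ Fin (rk (prod X Y))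

/-- the calculus of correspondences -/
structure Calculus (K : Type) [Field K] [CharZero K] extends Data K where
  deg_le : ∀ {n : ℕ} (X : Var n) (a : Fin (rk X)), deg X a ≤ 2 * dim X
  alg_deg : ∀ {n : ℕ} (X : Var n) (r : ℤ), ∀ v ∈ alg X r, ∀ a, v a ≠ 0 → (deg X a : ℤ) = 2 * r
  cyc_deg : ∀ {n : ℕ} (X Y : Var n) (r : ℤ), ∀ f ∈ cyc X Y r, ∀ b a, f b a ≠ 0 →
    (deg Y b : ℤ) = deg X a + 2 * r
  /-- the diagonal induces the identity -/
  one_mem : ∀ {n : ℕ} (X : Var n), 1 ∈ cyc X X 0
  /-- composition of correspondences -/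
  mul_mem : ∀ {n : ℕ} (X Y Z : Var n) (r s : ℤ), ∀ f ∈ cyc X Y r, ∀ g ∈ cyc Y Z s,
    g * f ∈ cyc X Z (r + s)
  /-- correspondences act on the classes of cycles -/
  act_mem : ∀ {n : ℕ} (X Y : Var n) (r s : ℤ), ∀ f ∈ cyc X Y r, ∀ v ∈ alg X s,
    f *ᵥ v ∈ alg Y (s + r)
  /-- the trace formula: the alternating trace of a correspondence is an intersection number -/
  trace_formula : ∀ {n : ℕ} (X : Var n), ∀ f ∈ cyc X X 0,
    ∃ q : ℚ, ∑ a, (-1 : K) ^ deg X a * f a a = (q : K)
  dim_prod : ∀ {n : ℕ} (X Y : Var n), dim (prod X Y) = dim X + dim Y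
  deg_prod : ∀ {n : ℕ} (X Y : Var n) (a : Fin (rk X)) (b : Fin (rk Y)),
    deg (prod X Y) (pr X Y (a, b)) = deg X a + deg Y b

/-- external products and partial traces of correspondences -/
structure Products (K : Type) [Field K] [CharZero K] extends Calculus K where
  /-- external products of correspondences -/
  kron_mem : ∀ {n : ℕ} (X X' Y Y' : Var n) (r s : ℤ), ∀ f ∈ cyc X X' r, ∀ g ∈ cyc Y Y' s,
    (Matrix.of fun b a => f ((pr X' Y').symm b).1 ((pr X Y).symm a).1 *
      g ((pr X' Y').symm b).2 ((pr X Y).symm a).2) ∈ cyc (prod X Y) (prod X' Y') (r + s)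
  /-- partial traces of correspondences over the second factor -/
  ptr_right : ∀ {n : ℕ} (X X' Y : Var n) (r : ℤ), ∀ f ∈ cyc (prod X Y) (prod X' Y) r,
    (Matrix.of fun b a => ∑ y, (-1 : K) ^ deg Y y * f (pr X' Y (b, y)) (pr X Y (a, y))) ∈
      cyc X X' r
  /-- partial traces of correspondences over the first factor -/
  ptr_left : ∀ {n : ℕ} (X Y Y' : Var n) (r : ℤ), ∀ f ∈ cyc (prod X Y) (prod X Y') r,
    (Matrix.of fun b a => ∑ x, (-1 : K) ^ deg X x * f (pr X Y' (x, b)) (pr X Y (x, a))) ∈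
      cyc Y Y' r

/-- the hard Lefschetz theorem, and the theorem of Katz and Messing -/
structure Hard (K : Type) [Field K] [CharZero K] extends Products K where
  Lef_nonempty : ∀ {n : ℕ} (X : Var n), (Lef X).Nonempty
  Lef_mem : ∀ {n : ℕ} (X : Var n), ∀ L ∈ Lef X, L ∈ cyc X X 1
  /-- the hard Lefschetz theorem: `L ^ (d - i)` is injective on `Hⁱ`, `d = dim X` -/
  hard_inj : ∀ {n : ℕ} (X : Var n), ∀ L ∈ Lef X, ∀ i, i ≤ dim X → ∀ v : Fin (rk X) → K,
    (∀ a, v a ≠ 0 → deg X a = i) → L ^ (dim X - i) *ᵥ v = 0 → v = 0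
  /-- the hard Lefschetz theorem: `L ^ (d - i)` maps `Hⁱ` onto `H^(2d - i)` -/
  hard_surj : ∀ {n : ℕ} (X : Var n), ∀ L ∈ Lef X, ∀ i, i ≤ dim X → ∀ v : Fin (rk X) → K,
    (∀ a, v a ≠ 0 → deg X a + i = 2 * dim X) →
    ∃ u : Fin (rk X) → K, (∀ a, u a ≠ 0 → deg X a = i) ∧ L ^ (dim X - i) *ᵥ u = v
  /-- the external product of ample line bundles is ample -/
  Lef_prod : ∀ {n : ℕ} (X Y : Var n), ∀ L ∈ Lef X, ∀ M ∈ Lef Y,
    (Matrix.of fun b a =>
      L ((pr X Y).symm b).1 ((pr X Y).symm a).1 *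
        (1 : Matrix (Fin (rk Y)) (Fin (rk Y)) K) ((pr X Y).symm b).2 ((pr X Y).symm a).2 +
      (1 : Matrix (Fin (rk X)) (Fin (rk X)) K) ((pr X Y).symm b).1 ((pr X Y).symm a).1 *
        M ((pr X Y).symm b).2 ((pr X Y).symm a).2) ∈ Lef (prod X Y)
  /-- Katz and Messing: the Künneth projectors of the varieties over `F 0`, the algebraic closure of
  a finite field, are algebraic -/
  kunneth : ∀ (X : Var 0) (i : ℕ), Matrix.diagonal (fun a => if deg X a = i then (1 : K) else 0) ∈
    cyc X X 0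

/-- A Weil cohomology with algebraic classes and correspondences for all smooth projective connected
varieties over the fields `F 0 ⊂ F 1 ⊂ …`, see `Data`. Projective spaces over `F 0`: with
`h = hyp r` the product with the class of a hyperplane, one has `h ^ (r + 1) = 0` and the degree of
`h ^ l` is `1` if `l = r` and `0` if `l < r`; pull-back and push-forward for the projections
`Z × P^r → Z` are algebraic -/
structure Theory (K : Type) [Field K] [CharZero K] extends Hard K where
  P : ℕ → Var 0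
  unit : ∀ r : ℕ, Fin (rk (P r)) → K
  degree : ∀ r : ℕ, Fin (rk (P r)) → K
  hyp : ∀ r : ℕ, Matrix (Fin (rk (P r))) (Fin (rk (P r))) K
  dim_P : ∀ r : ℕ, dim (P r) = r
  hyp_mem : ∀ r : ℕ, hyp r ∈ Lef (P r)
  hyp_pow : ∀ r : ℕ, hyp r ^ (r + 1) = 0
  degree_pow : ∀ r l : ℕ, l ≤ r →
    degree r ⬝ᵥ (hyp r ^ l *ᵥ unit r) = if l = r then 1 else 0
  pull_mem : ∀ (Z : Var 0) (r : ℕ), (Matrix.of fun b a =>
    (1 : Matrix (Fin (rk Z)) (Fin (rk Z)) K) ((pr Z (P r)).symm b).1 a *
      unit r ((pr Z (P r)).symm b).2) ∈ cyc Z (prod Z (P r)) 0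
  push_mem : ∀ (Z : Var 0) (r : ℕ), (Matrix.of fun b a =>
    (1 : Matrix (Fin (rk Z)) (Fin (rk Z)) K) b ((pr Z (P r)).symm a).1 *
      degree r ((pr Z (P r)).symm a).2) ∈ cyc (prod Z (P r)) Z (-(r : ℤ))

variable {K : Type} [Field K] [CharZero K]

namespace Theory

variable (W : Theory K) {n : ℕ}

/-- the vector `v` lies in `Hⁱ(X)` -/
def InH (X : W.Var n) (i : ℕ) (v : Fin (W.rk X) → K) : Prop := ∀ a, v a ≠ 0 → W.deg X a = i

/-- the map `f` has degree `2r` -/
def HasDeg {m : ℕ} (X : W.Var n) (Y : W.Var m) (r : ℤ) (f : Matrix (Fin (W.rk Y)) (Fin (W.rk X)) K) :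
    Prop := ∀ b a, f b a ≠ 0 → (W.deg Y b : ℤ) = W.deg X a + 2 * r

/-- the Künneth projector of `X` in degree `i` -/
def pj (X : W.Var n) (i : ℕ) : Matrix (Fin (W.rk X)) (Fin (W.rk X)) K :=
  Matrix.diagonal fun a => if W.deg X a = i then 1 else 0

/-- the even Künneth projector of `X` -/
def even (X : W.Var n) : Matrix (Fin (W.rk X)) (Fin (W.rk X)) K :=
  Matrix.diagonal fun a => if Even (W.deg X a) then 1 else 0

/-- `C⁺(X)`: the even Künneth projector is algebraic -/
def Cplus (X : W.Var n) : Prop := W.even X ∈ W.cyc X X 0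

/-- `C(X)`: all Künneth projectors are algebraic -/
def C (X : W.Var n) : Prop := ∀ i : ℕ, W.pj X i ∈ W.cyc X X 0

/-- `B(X)`, the (strong) Lefschetz standard conjecture: for every ample class `L` and every
`i ≤ d = dim X` the inverse of `L ^ (d - i) : Hⁱ(X) → H^(2d - i)(X)` is algebraic -/
def B (X : W.Var n) : Prop := ∀ L ∈ W.Lef X, ∀ i : ℕ, i ≤ W.dim X →
  ∃ θ ∈ W.cyc X X ((i : ℤ) - W.dim X), θ * L ^ (W.dim X - i) * W.pj X i = W.pj X i

/-- the external product `L ⊗ 1 + 1 ⊗ L` on the square `X × X` -/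
def sq (X : W.Var n) (L : Matrix (Fin (W.rk X)) (Fin (W.rk X)) K) :
    Matrix (Fin (W.rk (W.prod X X))) (Fin (W.rk (W.prod X X))) K :=
  Matrix.of fun b a =>
    L ((W.pr X X).symm b).1 ((W.pr X X).symm a).1 *
      (1 : Matrix (Fin (W.rk X)) (Fin (W.rk X)) K) ((W.pr X X).symm b).2 ((W.pr X X).symm a).2 +
    (1 : Matrix (Fin (W.rk X)) (Fin (W.rk X)) K) ((W.pr X X).symm b).1 ((W.pr X X).symm a).1 *
      L ((W.pr X X).symm b).2 ((W.pr X X).symm a).2

/-- `T` is a generic section of `V`, a variety over `F 0`: `T` is (the base change to `F m` of) the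
generic member, over the field of rational functions `k` of the linear system, of the linear system
of the line bundle `N L` on `V`, where `N` is large: `up` and `down` are the restriction
`H(V) → H(T)` and the Gysin map `H(T) → H(V)`, whose composition is the product with `N L`; weak
Lefschetz theorem; the kernel of the Gysin map (the vanishing cohomology) is not zero;
`Gal` is the action of the Galois group of `k`; and the classes of the cycles on `T × T` which
are invariant, hence defined over `k`, are the combinations of the class of the diagonal and of the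
restrictions of the classes of cycles on `V × V`, since the incidence variety of all
`(v, v', s)` with `s(v) = s(v') = 0` is a projective bundle over `V × V` minus the diagonal and
over the diagonal -/
structure GenericSection {m : ℕ} (V : W.Var 0) (L : Matrix (Fin (W.rk V)) (Fin (W.rk V)) K)
    (T : W.Var m) where
  N : ℕ
  up : Matrix (Fin (W.rk T)) (Fin (W.rk V)) K
  down : Matrix (Fin (W.rk V)) (Fin (W.rk T)) K
  Gal : Set (Matrix (Fin (W.rk T)) (Fin (W.rk T)) K)
  N_pos : 0 < N
  dim_eq : W.dim T + 1 = W.dim V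
  up_deg : W.HasDeg V T 0 up
  down_deg : W.HasDeg T V 1 down
  down_up : down * up = (N : K) • L
  weak : ∀ i, i ≤ W.dim T → ∀ v, W.InH V i v → up *ᵥ v = 0 → v = 0
  vanishing : ∃ v, v ≠ 0 ∧ W.InH T (W.dim T) v ∧ down *ᵥ v = 0
  Gal_deg : ∀ g ∈ Gal, IsUnit g ∧ W.HasDeg T T 0 g
  cycles : ∀ f ∈ W.cyc T T 0, (∀ g ∈ Gal, g * f = f * g) →
    ∃ q : ℚ, ∃ c ∈ W.cyc V V (-1), f = (q : K) • 1 + up * c * down

/-- generic sections exist, for all varieties over `F 0` of dimension at least two and all ample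
line bundles -/
def Sections : Prop := ∀ V : W.Var 0, 2 ≤ W.dim V → ∀ L ∈ W.Lef V,
  ∃ (m : ℕ) (T : W.Var m), Nonempty (W.GenericSection V L T)

/-- the relative hard Lefschetz theorem for a morphism from `V` to a curve: `M` is the product with
an ample class and `h` is the product with the class of a fibre. With `d = dim V` and `i < d`:
`M ^ (d - 1 - i)` is bijective from `h Hⁱ(V)` to `h H^(2d - 2 - i)(V)`, and `M ^ (d - i)` is
injective on the kernel of `h` modulo the image of `h` in degree `i` -/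
structure RelHard (V : W.Var n) (M h : Matrix (Fin (W.rk V)) (Fin (W.rk V)) K) : Prop where
  inj : ∀ i, i + 1 ≤ W.dim V → ∀ v, W.InH V i v → M ^ (W.dim V - 1 - i) *ᵥ (h *ᵥ v) = 0 →
    h *ᵥ v = 0
  surj : ∀ i, i + 1 ≤ W.dim V → ∀ v, W.InH V (2 * W.dim V - 2 - i) v →
    ∃ u, W.InH V i u ∧ M ^ (W.dim V - 1 - i) *ᵥ (h *ᵥ u) = h *ᵥ v
  mid : ∀ i, i + 1 ≤ W.dim V → ∀ v, W.InH V i v → h *ᵥ v = 0 →
    ∀ u, M ^ (W.dim V - i) *ᵥ v = h *ᵥ u →
    ∃ u', (∀ a, u' a ≠ 0 → W.deg V a + 2 = i) ∧ v = h *ᵥ u'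

/-- a model of `X`, over `F (n + 1)`, over a curve `S` over `F n`: `X` is the geometric generic
fibre of a smooth projective family over an open subset of `S`, `L` comes from this family, `X₀` is
a fibre of the family over a general point of `S`, `s` is the specialisation isomorphism of
`H(X)` and `H(X₀)`; `mon` is the monodromy group; `V` is a smooth projective variety with a
morphism to `S` and with a generically finite morphism `a` over `S` to (a compactification of)
the fibre product of the family with itself over `S`; `M` is ample on `V` and `h` is the class of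
the fibre of `V`; `j` is the restriction to the geometric generic fibre of `V` followed by the
push-forward to `X × X`, divided by the degree of `a`; `k` is the pull-back from `X₀ × X₀` to the
fibre of `V` followed by the Gysin map. The last property is the theorem of the fixed part -/
structure Model (X : W.Var (n + 1)) (L : Matrix (Fin (W.rk X)) (Fin (W.rk X)) K) where
  X₀ : W.Var n
  V : W.Var n
  s : Matrix (Fin (W.rk X₀)) (Fin (W.rk X)) K
  s' : Matrix (Fin (W.rk X)) (Fin (W.rk X₀)) K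
  mon : Set (Matrix (Fin (W.rk X)) (Fin (W.rk X)) K)
  M : Matrix (Fin (W.rk V)) (Fin (W.rk V)) K
  h : Matrix (Fin (W.rk V)) (Fin (W.rk V)) K
  j : (Fin (W.rk V) → K) →ₗ[K] Matrix (Fin (W.rk X)) (Fin (W.rk X)) K
  k : Matrix (Fin (W.rk X₀)) (Fin (W.rk X₀)) K →ₗ[K] (Fin (W.rk V) → K)
  dim_X₀ : W.dim X₀ = W.dim X
  dim_V : W.dim V = 2 * W.dim X + 1
  left_inv : s' * s = 1
  right_inv : s * s' = 1
  s_deg : W.HasDeg X X₀ 0 s
  s_Lef : s * L * s' ∈ W.Lef X₀
  mon_prop : ∀ g ∈ mon, IsUnit g ∧ W.HasDeg X X 0 g ∧ g * L = L * g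
  M_mem : M ∈ W.Lef V
  h_mem : h ∈ W.cyc V V 1
  comm : h * M = M * h
  h_sq : h * h = 0
  rel : W.RelHard V M h
  j_alg : ∀ r : ℤ, ∀ u ∈ W.alg V r, j u ∈ W.cyc X X (r - W.dim X)
  k_alg : ∀ r : ℤ, ∀ f ∈ W.cyc X₀ X₀ (r - W.dim X), k f ∈ W.alg V (r + 1)
  j_zero : ∀ u, h *ᵥ u = 0 → j u = 0
  fixed : ∀ (r : ℕ) (f : Matrix (Fin (W.rk X)) (Fin (W.rk X)) K),
    W.HasDeg X X ((r : ℤ) - W.dim X) f → (∀ g ∈ mon, g * f = f * g) →
    ∃ w, W.InH V (2 * r) w ∧ j w = f ∧ h *ᵥ w = k (s * f * s')

/-- every variety over `F (n + 1)`, with an ample line bundle, has a model over a curve over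
`F n` -/
def Models : Prop := ∀ (n : ℕ) (X : W.Var (n + 1)), ∀ L ∈ W.Lef X, Nonempty (W.Model X L)

end Theory

end Pool.Agent.H64.CB
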