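import Mathlib
import Pool.Agent.H64.CB.Defs

/-!
# The sign conjecture and the Lefschetz standard conjecture: targets

Every `T_XXX : Prop` is to be proved as a theorem `pf_XXX : T_XXX` (or with other targets as
explicit hypotheses) in its own file.
-/

set_option autoImplicit false

open Matrix

namespace Pool.Agent.H64.CB

/-- RAT: a matrix whose powers have rational traces has a rational Fitting polynomial. -/
def T_RAT : Prop := ∀ (K : Type) [Field K] [CharZero K] (m : ℕ) (x : Matrix (Fin m) (Fin m) K),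
  (∀ k : ℕ, ∃ q : ℚ, (x ^ (k + 1)).trace = (q : K)) →
  ∃ (g : Polynomial ℚ) (a : ℕ), x ^ a * (1 - x * Polynomial.aeval x g) = 0

/-- FIT: if moreover the trace is not zero, some polynomial in `x` is a non-zero idempotent. -/
def T_FIT : Prop := ∀ (K : Type) [Field K] [CharZero K] (m : ℕ) (x : Matrix (Fin m) (Fin m) K),
  (∀ k : ℕ, ∃ q : ℚ, (x ^ (k + 1)).trace = (q : K)) → x.trace ≠ 0 →
  ∃ g : Polynomial ℚ, (x * Polynomial.aeval x g) * (x * Polynomial.aeval x g) =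
    x * Polynomial.aeval x g ∧ x * Polynomial.aeval x g ≠ 0

/-- SPL: a map which is numerically non-trivial on every idempotent splits. -/
def T_SPL : Prop := ∀ (K : Type) [Field K] [CharZero K] (m : ℕ)
  (A : ℤ → Submodule ℚ (Matrix (Fin m) (Fin m) K)) (u L : Matrix (Fin m) (Fin m) K),
  (∀ r s : ℤ, ∀ f ∈ A r, ∀ g ∈ A s, g * f ∈ A (r + s)) → u ∈ A 0 → u * u = u → L ∈ A 1 →
  (∀ x ∈ A 0, u * x = x → x * u = x → ∃ q : ℚ, x.trace = (q : K)) →
  (∀ e ∈ A 0, e * e = e → e ≠ 0 → u * e = e → e * u = e →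
    ∃ α ∈ A (-1), (α * L * e).trace ≠ 0) →
  ∃ α ∈ A (-1), α * L * u = u

/-- TRC: a left inverse of `L ⊗ 1 + 1 ⊗ L` on `Hⁱ ⊗ Hⁱ` shows that `L` is numerically non-trivial
on every idempotent. -/
def T_TRC : Prop := ∀ (K : Type) [Field K] [CharZero K] (W : Theory K) (Z : W.Var 0),
  ∀ L ∈ W.cyc Z Z 1, ∀ (i : ℕ), ∀ c ∈ W.cyc (W.prod Z Z) (W.prod Z Z) (-1),
  (∀ v, W.InH (W.prod Z Z) (2 * i) v → c *ᵥ (W.sq Z L *ᵥ v) = v) →
  ∀ e ∈ W.cyc Z Z 0, e * e = e → e ≠ 0 → W.pj Z i * e = e → e * W.pj Z i = e →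
    ∃ α ∈ W.cyc Z Z (-1), (α * L * e).trace ≠ 0

/-- SEC: the sign conjecture for a generic section. -/
def T_SEC : Prop := ∀ (K : Type) [Field K] [CharZero K] (W : Theory K) (V : W.Var 0)
  (L : Matrix (Fin (W.rk V)) (Fin (W.rk V)) K) (m : ℕ) (T : W.Var m),
  Nonempty (W.GenericSection V L T) → Even (W.dim V) → W.Cplus T →
  ∃ c ∈ W.cyc V V (-1), ∀ i, Even i → i + 2 ≤ W.dim V → ∀ v, W.InH V i v →
    c *ᵥ (L *ᵥ v) = v

/-- `C⁺` for all generic sections of squares of varieties over `F 0` -/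
def SignSquares {K : Type} [Field K] [CharZero K] (W : Theory K) : Prop :=
  ∀ (Z : W.Var 0), ∀ L ∈ W.Lef Z, ∀ (m : ℕ) (T : W.Var m),
    Nonempty (W.GenericSection (W.prod Z Z) (W.sq Z L) T) → W.Cplus T

/-- `L : Hⁱ → Hⁱ⁺²` has an algebraic left inverse for all `i < dim Z`, for all `Z` over `F 0` -/
def LeftInv {K : Type} [Field K] [CharZero K] (W : Theory K) : Prop :=
  ∀ (Z : W.Var 0), ∀ L ∈ W.Lef Z, ∀ i, i < W.dim Z →
    ∃ α ∈ W.cyc Z Z (-1), α * L * W.pj Z i = W.pj Z i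

/-- LFT: left inverses. -/
def T_LFT : Prop := ∀ (K : Type) [Field K] [CharZero K] (W : Theory K), W.Sections →
  SignSquares W → LeftInv W

/-- PRT: from left inverses of `L` to inverses of the powers of `L`, by products with projective
spaces. -/
def T_PRT : Prop := ∀ (K : Type) [Field K] [CharZero K] (W : Theory K), LeftInv W →
  ∀ Z : W.Var 0, W.B Z

/-- LEM: classes over a curve. -/
def T_LEM : Prop := ∀ (K : Type) [Field K] [CharZero K] (W : Theory K) (n : ℕ) (V : W.Var n),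
  W.C V → W.B V → ∀ M ∈ W.Lef V, ∀ h ∈ W.cyc V V 1, h * M = M * h → h * h = 0 →
  W.RelHard V M h → ∀ r : ℕ, 2 * r < W.dim V → ∀ w, W.InH V (2 * r) w →
  h *ᵥ w ∈ W.alg V (r + 1) → ∃ u ∈ W.alg V r, h *ᵥ u = h *ᵥ w

/-- STP: from `F n` to `F (n + 1)`. -/
def T_STP : Prop := ∀ (K : Type) [Field K] [CharZero K] (W : Theory K), W.Models → ∀ n : ℕ,
  (∀ V : W.Var n, W.C V ∧ W.B V) → ∀ X : W.Var (n + 1), W.C X ∧ W.B X

/-- FIN: the theorem. -/
def T_FIN : Prop := ∀ (K : Type) [Field K] [CharZero K] (W : Theory K), W.Sections → W.Models →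
  List.TFAE [
    ∀ (n : ℕ) (X : W.Var n), W.Cplus X,
    ∀ (Z : W.Var 0), ∀ L ∈ W.Lef Z, ∀ (m : ℕ) (T : W.Var m),
      Nonempty (W.GenericSection (W.prod Z Z) (W.sq Z L) T) → W.Cplus T,
    ∀ Z : W.Var 0, W.B Z,
    ∀ (n : ℕ) (X : W.Var n), W.C X ∧ W.B X]

end Pool.Agent.H64.CB
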