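import Mathlib
import Pool.Agent.H64.CB.Targets

/-!
# The sign conjecture and the Lefschetz standard conjecture: assembly
-/

set_option autoImplicit false

open Matrix

namespace Pool.Agent.H64.CB

variable {K : Type} [Field K] [CharZero K]

theorem cplus_of_c (W : Theory K) {n : ℕ} (X : W.Var n) (h : W.C X) : W.Cplus X := by
  have key : W.even X = ∑ i ∈ (Finset.range (2 * W.dim X + 1)).filter (fun i => Even i),
      W.pj X i := by
    ext a b
    rw [Matrix.sum_apply]
    by_cases hab : a = b
    · subst hab
      simp only [Theory.even, Theory.pj, Matrix.diagonal_apply_eq]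
      rw [Finset.sum_ite_eq]
      by_cases he : Even (W.deg X a)
      · rw [if_pos he, if_pos]
        rw [Finset.mem_filter, Finset.mem_range]
        exact ⟨Nat.lt_succ_of_le (W.deg_le X a), he⟩
      · rw [if_neg he, if_neg]
        rw [Finset.mem_filter]
        exact fun h => he h.2
    · simp only [Theory.even, Theory.pj, Matrix.diagonal_apply_ne _ hab]
      simp
  rw [Theory.Cplus, key]
  exact Submodule.sum_mem _ fun i _ => h i

theorem fin_of (hLFT : T_LFT) (hPRT : T_PRT) (hSTP : T_STP) : T_FIN := by
  intro K _ _ W hS hM
  tfae_have 1 → 2 := fun h Z L _ m T _ => h m T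
  tfae_have 2 → 3 := fun h Z => hPRT K W (hLFT K W hS h) Z
  tfae_have 3 → 4 := by
    intro h n
    induction n with
    | zero => exact fun X => ⟨fun i => W.kunneth X i, h X⟩
    | succ n ih => exact hSTP K W hM n ih
  tfae_have 4 → 1 := fun h n X => cplus_of_c W X (h n X).1
  tfae_finish

end Pool.Agent.H64.CB
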