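import Mathlib
import Pool.Agent.H64.CB.Targets

/-!
# The numerical form
-/

set_option autoImplicit false

open Matrix

namespace Pool.Agent.H64.CB

variable {K : Type} [Field K] [CharZero K]

/-- for all `Z` over `F 0`, `L` ample and `i < dim Z`: if `e ≠ 0` is an algebraic idempotent of
`Hⁱ(Z)`, then `L e` is not numerically trivial -/
def NumNon (W : Theory K) : Prop :=
  ∀ Z : W.Var 0, ∀ L ∈ W.Lef Z, ∀ i, i < W.dim Z → ∀ e ∈ W.cyc Z Z 0, e * e = e → e ≠ 0 →
    W.pj Z i * e = e → e * W.pj Z i = e → ∃ α ∈ W.cyc Z Z (-1), (α * L * e).trace ≠ 0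

theorem pj_apply (W : Theory K) {n : ℕ} (X : W.Var n) (i : ℕ) (a b : Fin (W.rk X)) :
    W.pj X i a b = if a = b ∧ W.deg X a = i then 1 else 0 := by
  by_cases hab : a = b
  · subst hab
    simp [Theory.pj, Matrix.diagonal_apply_eq]
  · simp [Theory.pj, hab]

theorem pj_mul (W : Theory K) {n : ℕ} (X : W.Var n) (i : ℕ) :
    W.pj X i * W.pj X i = W.pj X i := by
  rw [Theory.pj, Matrix.diagonal_mul_diagonal]
  congr 1
  ext a
  split_ifs <;> simp

theorem mul_pj_apply (W : Theory K) {n : ℕ} (X : W.Var n) (i : ℕ)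
    (x : Matrix (Fin (W.rk X)) (Fin (W.rk X)) K) (a b : Fin (W.rk X)) :
    (x * W.pj X i) a b = if W.deg X b = i then x a b else 0 := by
  rw [Theory.pj, Matrix.mul_diagonal]
  split_ifs <;> simp

theorem rat_trace (W : Theory K) {n : ℕ} (X : W.Var n) (i : ℕ)
    (x : Matrix (Fin (W.rk X)) (Fin (W.rk X)) K) (hx : x ∈ W.cyc X X 0)
    (h : x * W.pj X i = x) : ∃ q : ℚ, x.trace = (q : K) := by
  obtain ⟨q, hq⟩ := W.trace_formula X x hx
  have key : ∑ a, (-1 : K) ^ W.deg X a * x a a = (-1) ^ i * x.trace := by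
    rw [Matrix.trace, Finset.mul_sum]
    refine Finset.sum_congr rfl fun a _ => ?_
    rw [Matrix.diag_apply]
    by_cases ha : W.deg X a = i
    · rw [ha]
    · have : x a a = 0 := by
        rw [← h, mul_pj_apply, if_neg ha]
      rw [this, mul_zero, mul_zero]
  rw [key] at hq
  refine ⟨(-1) ^ i * q, ?_⟩
  push_cast
  rw [← hq, ← mul_assoc, ← mul_pow]
  norm_num

theorem left_of_num (hSPL : T_SPL) (W : Theory K) (h : NumNon W) : LeftInv W := by
  intro Z L hL i hi
  refine hSPL K (W.rk Z) (W.cyc Z Z) (W.pj Z i) L (fun r s f hf g hg => W.mul_mem Z Z Z r s f hf g hg)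
    (W.kunneth Z i) (pj_mul W Z i) (W.Lef_mem Z L hL) ?_ ?_
  · intro x hx _ h2
    exact rat_trace W Z i x hx h2
  · intro e he h1 h2 h3 h4
    exact h Z L hL i hi e he h1 h2 h3 h4

theorem trace_idem_ne {m : ℕ} (e : Matrix (Fin m) (Fin m) K) (h : e * e = e) (h0 : e ≠ 0) :
    e.trace ≠ 0 := by
  have h1 : IsIdempotentElem (Matrix.toLin' e) := by
    change Matrix.toLin' e * Matrix.toLin' e = _
    rw [Module.End.mul_eq_comp, ← Matrix.toLin'_mul, h]
  intro h2
  apply h0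
  have h3 : Matrix.toLin' e = 0 := by
    apply LinearMap.IsIdempotentElem.eq_zero_of_trace_eq_zero h1
    rw [Matrix.trace_toLin'_eq, h2]
  exact (LinearEquiv.map_eq_zero_iff Matrix.toLin').1 h3

theorem num_of_b (W : Theory K) (h : ∀ Z : W.Var 0, W.B Z) : NumNon W := by
  intro Z L hL i hi e he h1 h2 h3 h4
  obtain ⟨θ, hθ, hθ2⟩ := h Z L hL i hi.le
  have hpow : ∀ k : ℕ, L ^ k ∈ W.cyc Z Z k := by
    intro k
    induction k with
    | zero => simpa using W.one_mem Z
    | succ k ih =>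
      have := W.mul_mem Z Z Z 1 k L (W.Lef_mem Z L hL) (L ^ k) ih
      rw [pow_succ]
      have e1 : (1 : ℤ) + (k : ℤ) = ((k + 1 : ℕ) : ℤ) := by push_cast; ring
      rwa [e1] at this
  refine ⟨θ * L ^ (W.dim Z - i - 1), ?_, ?_⟩
  · have := W.mul_mem Z Z Z _ _ _ (hpow (W.dim Z - i - 1)) θ hθ
    have e1 : ((W.dim Z - i - 1 : ℕ) : ℤ) + ((i : ℤ) - W.dim Z) = -1 := by omega
    rwa [e1] at this
  · have e2 : θ * L ^ (W.dim Z - i - 1) * L * e = e := by
      rw [mul_assoc θ, ← pow_succ]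
      have e3 : W.dim Z - i - 1 + 1 = W.dim Z - i := by omega
      rw [e3, ← h3, ← mul_assoc, hθ2]
    rw [e2]
    exact trace_idem_ne e h1 h2

end Pool.Agent.H64.CB
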