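import Mathlib
import Pool.Agent.H37.CB.PRT

/-!
# Products with projective spaces, critical degree
-/

set_option autoImplicit false

open Matrix Pool.Agent.H37.CB

namespace Pool.Agent.H64.CB

/-- from left inverses in the critical degree to `B` -/
theorem prt_crit {K : Type} [Field K] [CharZero K] (W : Theory K)
    (hLI : ∀ (Z : W.Var 0), ∀ L ∈ W.Lef Z, ∀ i, i + 1 = W.dim Z →
      ∃ α ∈ W.cyc Z Z (-1), α * L * W.pj Z i = W.pj Z i) (Z : W.Var 0) : W.B Z := by
  intro L hL i hi
  rcases Nat.eq_or_lt_of_le hi with hid | hid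
  · refine ⟨1, ?_, ?_⟩
    · rw [hid, sub_self]
      exact W.one_mem Z
    · rw [hid, Nat.sub_self, pow_zero, one_mul, one_mul]
  · obtain ⟨r, hr⟩ : ∃ r, W.dim Z = i + r + 1 := ⟨W.dim Z - i - 1, by omega⟩
    set e := W.pr Z (W.P r) with he
    set L' := (Matrix.of fun b a =>
      L ((W.pr Z (W.P r)).symm b).1 ((W.pr Z (W.P r)).symm a).1 *
        (1 : Matrix (Fin (W.rk (W.P r))) (Fin (W.rk (W.P r))) K) ((W.pr Z (W.P r)).symm b).2
          ((W.pr Z (W.P r)).symm a).2 +
      (1 : Matrix (Fin (W.rk Z)) (Fin (W.rk Z)) K) ((W.pr Z (W.P r)).symm b).1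
        ((W.pr Z (W.P r)).symm a).1 *
        W.hyp r ((W.pr Z (W.P r)).symm b).2 ((W.pr Z (W.P r)).symm a).2) with hL'
    have hL'm : L' ∈ W.Lef (W.prod Z (W.P r)) := W.Lef_prod Z (W.P r) L hL _ (W.hyp_mem r)
    have hdim : W.dim (W.prod Z (W.P r)) = i + r + 1 + r := by
      rw [W.dim_prod, W.dim_P, hr]
    obtain ⟨α, hα, hαL⟩ := hLI (W.prod Z (W.P r)) L' hL'm (i + 2 * r) (by omega)
    set pull := (Matrix.of fun b a =>
      (1 : Matrix (Fin (W.rk Z)) (Fin (W.rk Z)) K) ((W.pr Z (W.P r)).symm b).1 a *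
        W.unit r ((W.pr Z (W.P r)).symm b).2) with hpull
    set push := (Matrix.of fun b a =>
      (1 : Matrix (Fin (W.rk Z)) (Fin (W.rk Z)) K) b ((W.pr Z (W.P r)).symm a).1 *
        W.degree r ((W.pr Z (W.P r)).symm a).2) with hpush
    have hpullm : pull ∈ W.cyc Z (W.prod Z (W.P r)) 0 := W.pull_mem Z r
    have hpushm : push ∈ W.cyc (W.prod Z (W.P r)) Z (-(r : ℤ)) := W.push_mem Z r
    have hunit : ∀ (a : Fin (W.rk Z)) (c : Fin (W.rk (W.P r))), W.unit r c ≠ 0 →
        (W.deg (W.P r) c : ℤ) = 0 := by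
      intro a c hc
      have h1 : pull (e (a, c)) a ≠ 0 := by
        rw [hpull]
        show (1 : Matrix (Fin (W.rk Z)) (Fin (W.rk Z)) K) (e.symm (e (a, c))).1 a *
          W.unit r (e.symm (e (a, c))).2 ≠ 0
        rw [Equiv.symm_apply_apply]
        show (1 : Matrix (Fin (W.rk Z)) (Fin (W.rk Z)) K) a a * W.unit r c ≠ 0
        rw [Matrix.one_apply_eq, one_mul]
        exact hc
      have h2 := W.cyc_deg _ _ _ _ hpullm _ _ h1
      rw [he, W.deg_prod] at h2
      push_cast at h2
      linarith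
    have hL'v : ∀ (x : Fin (W.rk Z) → K) (y : Fin (W.rk (W.P r)) → K),
        L' *ᵥ tens e x y = tens e (L *ᵥ x) y + tens e x (W.hyp r *ᵥ y) := by
      intro x y
      have e1 : L' = (Matrix.of fun b a => L (e.symm b).1 (e.symm a).1 *
          (1 : Matrix (Fin (W.rk (W.P r))) (Fin (W.rk (W.P r))) K) (e.symm b).2 (e.symm a).2) +
          (Matrix.of fun b a => (1 : Matrix (Fin (W.rk Z)) (Fin (W.rk Z)) K) (e.symm b).1
            (e.symm a).1 * W.hyp r (e.symm b).2 (e.symm a).2) := rfl
      rw [e1, Matrix.add_mulVec, kron_mulVec, kron_mulVec, Matrix.one_mulVec, Matrix.one_mulVec]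
    have key : ∀ x : Fin (W.rk Z) → K, (∀ a, x a ≠ 0 → (W.deg Z a : ℤ) = i) →
        push *ᵥ (α *ᵥ (((-1 : K) ^ r) • (pull *ᵥ (L ^ (r + 1) *ᵥ x)))) = x := by
      intro x hx
      set y : Fin (W.rk (W.prod Z (W.P r))) → K := ∑ l ∈ Finset.range (r + 1),
        ((-1 : K) ^ (r - l)) • tens e (L ^ (r - l) *ᵥ x) (W.hyp r ^ l *ᵥ W.unit r) with hy
      have hLy : L' *ᵥ y = ((-1 : K) ^ r) • tens e (L ^ (r + 1) *ᵥ x) (W.unit r) := by
        rw [hy, Matrix.mulVec_sum]
        have h1 := tele (K := K) r (fun l => tens e (L ^ (r + 1 - l) *ᵥ x)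
          (W.hyp r ^ l *ᵥ W.unit r))
        have h2 : ∑ l ∈ Finset.range (r + 1), L' *ᵥ (((-1 : K) ^ (r - l)) •
            tens e (L ^ (r - l) *ᵥ x) (W.hyp r ^ l *ᵥ W.unit r)) =
            ∑ l ∈ Finset.range (r + 1), ((-1 : K) ^ (r - l)) •
              (tens e (L ^ (r + 1 - l) *ᵥ x) (W.hyp r ^ l *ᵥ W.unit r) +
                tens e (L ^ (r + 1 - (l + 1)) *ᵥ x) (W.hyp r ^ (l + 1) *ᵥ W.unit r)) := by
          apply Finset.sum_congr rfl
          intro l hl
          have h3 : r + 1 - l = (r - l) + 1 := by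
            have := Finset.mem_range.1 hl
            omega
          have h4 : r + 1 - (l + 1) = r - l := by omega
          rw [Matrix.mulVec_smul, hL'v, h3, h4, pow_succ', ← Matrix.mulVec_mulVec,
            pow_succ' (W.hyp r) l, ← Matrix.mulVec_mulVec]
        rw [h2, h1, W.hyp_pow, Matrix.zero_mulVec, pow_zero, Matrix.one_mulVec, Nat.sub_zero]
        have h5 : tens e (L ^ (r + 1 - (r + 1)) *ᵥ x) (0 : Fin (W.rk (W.P r)) → K) = 0 := by
          funext b
          show _ * (0 : K) = 0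
          rw [mul_zero]
        rw [h5, add_zero]
      have hpy : push *ᵥ y = x := by
        rw [hy, Matrix.mulVec_sum, Finset.sum_eq_single r]
        · rw [Matrix.mulVec_smul, push_mulVec, W.degree_pow r r (le_refl r), if_pos rfl,
            Nat.sub_self, pow_zero, pow_zero, Matrix.one_mulVec, one_smul, one_smul]
        · intro l hl hlr
          have hlt := Finset.mem_range.1 hl
          rw [Matrix.mulVec_smul, push_mulVec, W.degree_pow r l (by omega), if_neg hlr,
            zero_smul, smul_zero]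
        · intro h
          exact absurd (Finset.mem_range.2 (Nat.lt_succ_self r)) h
      have hyH : ∀ b, y b ≠ 0 → W.deg (W.prod Z (W.P r)) b = i + 2 * r := by
        intro b hb
        rw [hy, Finset.sum_apply] at hb
        obtain ⟨l, hl, hlb⟩ := Finset.exists_ne_zero_of_sum_ne_zero hb
        have hlt := Finset.mem_range.1 hl
        have h1 : (L ^ (r - l) *ᵥ x) (e.symm b).1 * (W.hyp r ^ l *ᵥ W.unit r) (e.symm b).2 ≠ 0 :=
          right_ne_zero_of_mul hlb
        have h2 := deg_pow (W.Lef_mem Z L hL) hx (r - l) _ (left_ne_zero_of_mul h1)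
        have h3 := deg_pow (W.Lef_mem _ _ (W.hyp_mem r)) (hunit (e.symm b).1) l _
          (right_ne_zero_of_mul h1)
        have h4 := W.deg_prod Z (W.P r) (e.symm b).1 (e.symm b).2
        have h5 : W.pr Z (W.P r) ((e.symm b).1, (e.symm b).2) = b := by
          rw [Prod.mk.eta, he, Equiv.apply_symm_apply]
        rw [h5] at h4
        omega
      have hpj : W.pj (W.prod Z (W.P r)) (i + 2 * r) *ᵥ y = y := by
        funext b
        unfold Theory.pj
        rw [Matrix.mulVec_diagonal]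
        by_cases h0 : y b = 0
        · rw [h0, mul_zero]
        · rw [if_pos (hyH b h0), one_mul]
      have hαy : α *ᵥ (L' *ᵥ y) = y := by
        have h1 : (α * L' * W.pj (W.prod Z (W.P r)) (i + 2 * r)) *ᵥ y =
            W.pj (W.prod Z (W.P r)) (i + 2 * r) *ᵥ y := by rw [hαL]
        rw [← Matrix.mulVec_mulVec, hpj, ← Matrix.mulVec_mulVec] at h1
        exact h1
      rw [hpull, pull_mulVec, ← hLy, hαy, hpy]
    refine ⟨((-1 : K) ^ r) • (push * (α * pull)), ?_, ?_⟩
    · apply sgn_mem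
      have h1 := W.mul_mem _ _ _ _ _ _ (W.mul_mem _ _ _ _ _ _ hpullm α hα) push hpushm
      have h2 : (0 + -1 + -(r : ℤ)) = (i : ℤ) - W.dim Z := by
        rw [hr]
        push_cast
        ring
      rw [h2] at h1
      exact h1
    · have h1 : W.dim Z - i = r + 1 := by omega
      rw [h1]
      apply Matrix.toLin'.injective
      apply LinearMap.ext
      intro v
      rw [Matrix.toLin'_apply, Matrix.toLin'_apply, ← Matrix.mulVec_mulVec,
        ← Matrix.mulVec_mulVec, Matrix.smul_mulVec, ← Matrix.mulVec_mulVec,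
        ← Matrix.mulVec_mulVec]
      have h2 := key (W.pj Z i *ᵥ v) (by
        intro a ha
        unfold Theory.pj at ha
        rw [Matrix.mulVec_diagonal] at ha
        by_cases h0 : W.deg Z a = i
        · exact_mod_cast h0
        · rw [if_neg h0, zero_mul] at ha
          exact absurd rfl ha)
      rw [Matrix.mulVec_smul, Matrix.mulVec_smul] at h2
      exact h2


end Pool.Agent.H64.CB
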