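import Mathlib
import Pool.Agent.H64.CB.Asm
import Pool.Agent.H64.CB.Num
import Pool.Agent.H64.CB.PRC
import Pool.Agent.H14.CB.RAT
import Pool.Agent.H56.CB.FIT
import Pool.Agent.H42.CB.SPL
import Pool.Agent.H42.CB.TRC
import Pool.Agent.H37.CB.SEC
import Pool.Agent.H37.CB.PRT
import Pool.Agent.H63.CB.LFT
import Pool.Agent.H48.CB.LEM
import Pool.Agent.H89.CB.STP

/-!
# The sign conjecture and the Lefschetz standard conjecture: the theorem
-/

set_option autoImplicit false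

open Matrix

namespace Pool.Agent.H64.CB

theorem tSPL : T_SPL := Pool.Agent.H42.CB.pf_SPL (Pool.Agent.H56.CB.pf_FIT Pool.Agent.H14.CB.pf_RAT)

theorem tLFT : T_LFT :=
  Pool.Agent.H63.CB.pf_LFT tSPL Pool.Agent.H42.CB.pf_TRC Pool.Agent.H37.CB.pf_SEC

theorem tPRT : T_PRT := Pool.Agent.H37.CB.pf_PRT

theorem tSTP : T_STP :=
  Pool.Agent.H89.CB.pf_STP (Pool.Agent.H48.CB.pf_LEM Pool.Agent.H14.CB.pf_RAT)

/-- **The theorem.** -/
theorem main {K : Type} [Field K] [CharZero K] (W : Theory K) (hS : W.Sections) (hM : W.Models) :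
    List.TFAE [
      ∀ (n : ℕ) (X : W.Var n), W.Cplus X,
      ∀ (Z : W.Var 0), ∀ L ∈ W.Lef Z, ∀ (m : ℕ) (T : W.Var m),
        Nonempty (W.GenericSection (W.prod Z Z) (W.sq Z L) T) → W.Cplus T,
      ∀ Z : W.Var 0, W.B Z,
      ∀ (Z : W.Var 0), ∀ L ∈ W.Lef Z, ∀ i, i + 1 = W.dim Z → ∀ e ∈ W.cyc Z Z 0, e * e = e →
        e ≠ 0 → W.pj Z i * e = e → e * W.pj Z i = e →
        ∃ α ∈ W.cyc Z Z (-1), (α * L * e).trace ≠ 0,
      ∀ (n : ℕ) (X : W.Var n), W.C X ∧ W.B X] := by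
  have h0 := fin_of tLFT tPRT tSTP K W hS hM
  have h12 := h0.out 0 1
  have h13 := h0.out 0 2
  have h15 := h0.out 0 3
  tfae_have 1 ↔ 2 := h12
  tfae_have 1 ↔ 3 := h13
  tfae_have 1 ↔ 5 := h15
  tfae_have 3 → 4 := fun h Z L hL i hi => num_of_b W h Z L hL i (by omega)
  tfae_have 4 → 3 := by
    intro h
    refine prt_crit W fun Z L hL i hi => ?_
    refine tSPL K (W.rk Z) (W.cyc Z Z) (W.pj Z i) L
      (fun r s f hf g hg => W.mul_mem Z Z Z r s f hf g hg)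
      (W.kunneth Z i) (pj_mul W Z i) (W.Lef_mem Z L hL) ?_ ?_
    · intro x hx _ h2
      exact rat_trace W Z i x hx h2
    · intro e he h1 h2 h3 h4
      exact h Z L hL i hi e he h1 h2 h3 h4
  tfae_finish

end Pool.Agent.H64.CB
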