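import Mathlib

/-!
# The sign conjecture and the Lefschetz standard conjecture in characteristic p: definitions
-/

set_option autoImplicit false

namespace Pool.Agent.H64.CB

/-- The data of a Weil cohomology for the smooth projective connected varieties over the fields
`F 0 ⊂ F 1 ⊂ …`, where `F n` is the algebraic closure of the field of rational functions in `n`
variables over the prime field of characteristic `p`, in chosen homogeneous bases:

* `Var n`: the smooth projective connected varieties over `F n`; `dim`: the dimension;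
* `rk X`: the dimension of the total cohomology `H(X)`, which is identified with `K ^ rk X` by a
  basis of homogeneous elements; `deg X a`: the degree of the basis element `a`;
* `alg X r`: the classes in `H^(2r)(X)` of the cycles of codimension `r` on `X`, with rational
  coefficients;
* `cyc X Y r`: the maps `H(X) → H(Y)`, of degree `2r`, which are induced by the cycles with
  rational coefficients on `X × Y`;
* `Lef X`: the products with the classes of the ample line bundles on `X`;
* `prod X Y`: the product; `pr X Y`: the Künneth formula `H(X) ⊗ H(Y) = H(X × Y)`. -/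
structure Weil (K : Type) [Field K] [CharZero K] where
  Var : ℕ → Type
  dim : ∀ {n : ℕ}, Var n → ℕ
  rk : ∀ {n : ℕ}, Var n → ℕ
  deg : ∀ {n : ℕ} (X : Var n), Fin (rk X) → ℕ
  alg : ∀ {n : ℕ} (X : Var n), ℤ → Submodule ℚ (Fin (rk X) → K)
  cyc : ∀ {n : ℕ} (X Y : Var n), ℤ → Submodule ℚ (Matrix (Fin (rk Y)) (Fin (rk X)) K)
  Lef : ∀ {n : ℕ} (X : Var n), Set (Matrix (Fin (rk X)) (Fin (rk X)) K)
  prod : ∀ {n : ℕ}, Var n → Var n → Var n
  pr : ∀ {n : ℕ} (X Y : Var n), Fin (rk X) × Fin (rk Y) ≃ Fin (rk (prod X Y))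

namespace Weil

variable {K : Type} [Field K] [CharZero K] (W : Weil K)

/-- the total cohomology `H(X)` -/
abbrev H {n : ℕ} (X : W.Var n) : Type := Fin (W.rk X) → K

/-- the linear maps `H(X) → H(Y)` -/
abbrev Hom {n m : ℕ} (X : W.Var n) (Y : W.Var m) : Type := Matrix (Fin (W.rk Y)) (Fin (W.rk X)) K

section ops

variable {n m l : ℕ} {X X' : W.Var n} {Y Y' : W.Var m} {Z : W.Var l}

/-- the composition `g ∘ f` -/
def comp (g : W.Hom Y Z) (f : W.Hom X Y) : W.Hom X Z := g * f

/-- the value of `f` at `v` -/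
def ap (f : W.Hom X Y) (v : W.H X) : W.H Y := Matrix.mulVec f v

/-- the identity -/
def id (X : W.Var n) : W.Hom X X := 1

/-- the power `f ^ k` -/
def pw (f : W.Hom X X) (k : ℕ) : W.Hom X X := f ^ k

/-- the trace -/
def tr (f : W.Hom X X) : K := Matrix.trace f

/-- the alternating trace -/
def str (f : W.Hom X X) : K := ∑ a, (-1 : K) ^ W.deg X a * f a a

/-- the rational multiple `q f` -/
def rat (q : ℚ) (f : W.Hom X Y) : W.Hom X Y := (q : K) • f

/-- the vector `v` lies in `Hⁱ(X)` -/
def InH (X : W.Var n) (i : ℕ) (v : W.H X) : Prop := ∀ a, v a ≠ 0 → W.deg X a = i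

/-- the map `f` has degree `2r` -/
def HasDeg (r : ℤ) (f : W.Hom X Y) : Prop :=
  ∀ b a, f b a ≠ 0 → (W.deg Y b : ℤ) = W.deg X a + 2 * r

/-- the Künneth projector of `X` in degree `i` -/
def pj (X : W.Var n) (i : ℕ) : W.Hom X X :=
  Matrix.diagonal fun a => if W.deg X a = i then 1 else 0

/-- the even Künneth projector of `X` -/
def even (X : W.Var n) : W.Hom X X :=
  Matrix.diagonal fun a => if Even (W.deg X a) then 1 else 0

end ops

section products

variable {n : ℕ} {X X' Y Y' : W.Var n}

/-- the external product `f ⊗ g` -/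
def ext (f : W.Hom X X') (g : W.Hom Y Y') : W.Hom (W.prod X Y) (W.prod X' Y') :=
  Matrix.of fun b a => f ((W.pr X' Y').symm b).1 ((W.pr X Y).symm a).1 *
    g ((W.pr X' Y').symm b).2 ((W.pr X Y).symm a).2

/-- the partial (alternating) trace over the second factor -/
def ptrRight (f : W.Hom (W.prod X Y) (W.prod X' Y)) : W.Hom X X' :=
  Matrix.of fun b a => ∑ y, (-1 : K) ^ W.deg Y y * f (W.pr X' Y (b, y)) (W.pr X Y (a, y))

/-- the partial (alternating) trace over the first factor -/
def ptrLeft (f : W.Hom (W.prod X Y) (W.prod X Y')) : W.Hom Y Y' :=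
  Matrix.of fun b a => ∑ x, (-1 : K) ^ W.deg X x * f (W.pr X Y' (x, b)) (W.pr X Y (x, a))

/-- the operator `L ⊗ 1 + 1 ⊗ M` on `H(X × Y)` -/
def box (L : W.Hom X X) (M : W.Hom Y Y) : W.Hom (W.prod X Y) (W.prod X Y) :=
  W.ext L 1 + W.ext 1 M

/-- the map `x ↦ x ⊗ u` -/
def tensor (Z : W.Var n) {P : W.Var n} (u : W.H P) : W.Hom Z (W.prod Z P) :=
  Matrix.of fun b a => (1 : W.Hom Z Z) ((W.pr Z P).symm b).1 a * u ((W.pr Z P).symm b).2

/-- the map `x ⊗ y ↦ t(y) x`, for a linear form `t` -/
def contract (Z : W.Var n) {P : W.Var n} (t : W.H P) : W.Hom (W.prod Z P) Z :=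
  Matrix.of fun b a => (1 : W.Hom Z Z) b ((W.pr Z P).symm a).1 * t ((W.pr Z P).symm a).2

end products

/-- the calculus of correspondences: degrees, the diagonal, composition, the action on the classes
of cycles, and the trace formula -/
structure Calculus : Prop where
  deg_le : ∀ {n : ℕ} (X : W.Var n) (a : Fin (W.rk X)), W.deg X a ≤ 2 * W.dim X
  alg_deg : ∀ {n : ℕ} (X : W.Var n) (r : ℤ), ∀ v ∈ W.alg X r, ∀ a, v a ≠ 0 →
    (W.deg X a : ℤ) = 2 * r
  cyc_deg : ∀ {n : ℕ} (X Y : W.Var n) (r : ℤ), ∀ f ∈ W.cyc X Y r, W.HasDeg r f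
  one_mem : ∀ {n : ℕ} (X : W.Var n), W.id X ∈ W.cyc X X 0
  comp_mem : ∀ {n : ℕ} (X Y Z : W.Var n) (r s : ℤ), ∀ f ∈ W.cyc X Y r, ∀ g ∈ W.cyc Y Z s,
    W.comp g f ∈ W.cyc X Z (r + s)
  ap_mem : ∀ {n : ℕ} (X Y : W.Var n) (r s : ℤ), ∀ f ∈ W.cyc X Y r, ∀ v ∈ W.alg X s,
    W.ap f v ∈ W.alg Y (s + r)
  trace_formula : ∀ {n : ℕ} (X : W.Var n), ∀ f ∈ W.cyc X X 0, ∃ q : ℚ, W.str f = (q : K)

/-- external products and partial traces of correspondences -/
structure Products : Prop where
  dim_prod : ∀ {n : ℕ} (X Y : W.Var n), W.dim (W.prod X Y) = W.dim X + W.dim Y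
  deg_prod : ∀ {n : ℕ} (X Y : W.Var n) (a : Fin (W.rk X)) (b : Fin (W.rk Y)),
    W.deg (W.prod X Y) (W.pr X Y (a, b)) = W.deg X a + W.deg Y b
  ext_mem : ∀ {n : ℕ} (X X' Y Y' : W.Var n) (r s : ℤ), ∀ f ∈ W.cyc X X' r, ∀ g ∈ W.cyc Y Y' s,
    W.ext f g ∈ W.cyc (W.prod X Y) (W.prod X' Y') (r + s)
  ptrRight_mem : ∀ {n : ℕ} (X X' Y : W.Var n) (r : ℤ),
    ∀ f ∈ W.cyc (W.prod X Y) (W.prod X' Y) r, W.ptrRight f ∈ W.cyc X X' r
  ptrLeft_mem : ∀ {n : ℕ} (X Y Y' : W.Var n) (r : ℤ),
    ∀ f ∈ W.cyc (W.prod X Y) (W.prod X Y') r, W.ptrLeft f ∈ W.cyc Y Y' r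

/-- ample line bundles: with `d = dim X` the map `L ^ (d - i) : Hⁱ(X) → H^(2d - i)(X)` is injective
and surjective (the hard Lefschetz theorem), and external products of ample line bundles are
ample -/
structure Lefschetz : Prop where
  nonempty : ∀ {n : ℕ} (X : W.Var n), (W.Lef X).Nonempty
  mem : ∀ {n : ℕ} (X : W.Var n), ∀ L ∈ W.Lef X, L ∈ W.cyc X X 1
  inj : ∀ {n : ℕ} (X : W.Var n), ∀ L ∈ W.Lef X, ∀ i ≤ W.dim X, ∀ v, W.InH X i v →
    W.ap (W.pw L (W.dim X - i)) v = 0 → v = 0
  surj : ∀ {n : ℕ} (X : W.Var n), ∀ L ∈ W.Lef X, ∀ i ≤ W.dim X, ∀ v,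
    W.InH X (2 * W.dim X - i) v → ∃ u, W.InH X i u ∧ W.ap (W.pw L (W.dim X - i)) u = v
  box_mem : ∀ {n : ℕ} (X Y : W.Var n), ∀ L ∈ W.Lef X, ∀ M ∈ W.Lef Y,
    W.box L M ∈ W.Lef (W.prod X Y)

/-- `P` is the projective space of dimension `r` over `F 0`: `u` is the unit, `t` is the degree,
`h` is the product with the class of a hyperplane: `h ^ (r + 1) = 0`, the degree of `h ^ l` is `1`
if `l = r` and `0` if `l < r`, and pull-back and push-forward for the projections `Z × P → Z` are
algebraic -/
structure IsProjective (r : ℕ) (P : W.Var 0) (u t : W.H P) (h : W.Hom P P) : Prop where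
  dim_eq : W.dim P = r
  mem : h ∈ W.Lef P
  pow_eq : W.pw h (r + 1) = 0
  degree_eq : ∀ l ≤ r, dotProduct t (W.ap (W.pw h l) u) = if l = r then 1 else 0
  pull_mem : ∀ Z : W.Var 0, W.tensor Z u ∈ W.cyc Z (W.prod Z P) 0
  push_mem : ∀ Z : W.Var 0, W.contract Z t ∈ W.cyc (W.prod Z P) Z (-(r : ℤ))

/-- A Weil cohomology: the axioms. The Künneth projectors of the varieties over `F 0`, the algebraic
closure of a finite field, are algebraic by the theorem of Katz and Messing -/
structure Theory : Prop where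
  calculus : W.Calculus
  products : W.Products
  lefschetz : W.Lefschetz
  katzMessing : ∀ (Z : W.Var 0) (i : ℕ), W.pj Z i ∈ W.cyc Z Z 0
  projective : ∀ r : ℕ, ∃ (P : W.Var 0) (u t : W.H P) (h : W.Hom P P), W.IsProjective r P u t h

/-- `C⁺(X)`: the even Künneth projector is algebraic -/
def Cplus {n : ℕ} (X : W.Var n) : Prop := W.even X ∈ W.cyc X X 0

/-- `C(X)`: all Künneth projectors are algebraic -/
def C {n : ℕ} (X : W.Var n) : Prop := ∀ i : ℕ, W.pj X i ∈ W.cyc X X 0

/-- `B(X)`, the (strong) Lefschetz standard conjecture: for every ample class `L` and every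
`i ≤ d = dim X` the inverse of `L ^ (d - i) : Hⁱ(X) → H^(2d - i)(X)` is algebraic -/
def B {n : ℕ} (X : W.Var n) : Prop := ∀ L ∈ W.Lef X, ∀ i ≤ W.dim X,
  ∃ θ ∈ W.cyc X X ((i : ℤ) - W.dim X),
    W.comp (W.comp θ (W.pw L (W.dim X - i))) (W.pj X i) = W.pj X i

/-- `e ≠ 0` is an algebraic idempotent of `Hⁱ(X)` -/
def Idem {n : ℕ} (X : W.Var n) (i : ℕ) (e : W.Hom X X) : Prop :=
  e ∈ W.cyc X X 0 ∧ W.comp e e = e ∧ e ≠ 0 ∧ W.comp (W.pj X i) e = e ∧ W.comp e (W.pj X i) = e

/-- `N(X)`: for every ample class `L` and every algebraic idempotent `e ≠ 0` of `H^(d - 1)(X)`,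
`d = dim X > 0`, the correspondence `L e` is not numerically trivial: there is an algebraic `α` of
degree `-2` such that the trace of `α L e` is not zero -/
def Nontriv {n : ℕ} (X : W.Var n) : Prop := ∀ L ∈ W.Lef X, ∀ i, i + 1 = W.dim X →
  ∀ e, W.Idem X i e → ∃ α ∈ W.cyc X X (-1), W.tr (W.comp (W.comp α L) e) ≠ 0

/-- `T` is a generic section of `V`, a variety over `F 0`: `T` is (the base change to `F m` of) the
generic member, over the field of rational functions `k` of the linear system, of the linear system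
of the line bundle `N L` on `V`, where `N` is large: `up` and `down` are the restriction
`H(V) → H(T)` and the Gysin map `H(T) → H(V)`, whose composition is the product with `N L`; weak
Lefschetz theorem; the kernel of the Gysin map (the vanishing cohomology) is not zero;
`Gal` is the action of the Galois group of `k`; and the classes of the cycles on `T × T` which
are invariant, hence defined over `k`, are the combinations of the class of the diagonal and of the
restrictions of the classes of cycles on `V × V`, since the incidence variety of all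
`(v, v', s)` with `s(v) = s(v') = 0` is a projective bundle over `V × V` minus the diagonal and
over the diagonal -/
structure GenericSection {m : ℕ} (V : W.Var 0) (L : W.Hom V V) (T : W.Var m) where
  N : ℕ
  up : W.Hom V T
  down : W.Hom T V
  Gal : Set (W.Hom T T)
  N_pos : 0 < N
  dim_eq : W.dim T + 1 = W.dim V
  up_deg : W.HasDeg 0 up
  down_deg : W.HasDeg 1 down
  down_up : W.comp down up = W.rat N L
  weak : ∀ i ≤ W.dim T, ∀ v, W.InH V i v → W.ap up v = 0 → v = 0
  vanishing : ∃ v, v ≠ 0 ∧ W.InH T (W.dim T) v ∧ W.ap down v = 0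
  Gal_deg : ∀ g ∈ Gal, IsUnit g ∧ W.HasDeg 0 g
  cycles : ∀ f ∈ W.cyc T T 0, (∀ g ∈ Gal, W.comp g f = W.comp f g) →
    ∃ q : ℚ, ∃ c ∈ W.cyc V V (-1), f = W.rat q (W.id T) + W.comp (W.comp up c) down

/-- generic sections exist, for all varieties over `F 0` of dimension at least two and all ample
line bundles -/
def Sections : Prop := ∀ V : W.Var 0, 2 ≤ W.dim V → ∀ L ∈ W.Lef V,
  ∃ (m : ℕ) (T : W.Var m), Nonempty (W.GenericSection V L T)

/-- `C⁺` holds for all generic sections of the square of `Z` -/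
def SignSquare (Z : W.Var 0) : Prop := ∀ L ∈ W.Lef Z, ∀ (m : ℕ) (T : W.Var m),
  Nonempty (W.GenericSection (W.prod Z Z) (W.box L L) T) → W.Cplus T

/-- the relative hard Lefschetz theorem for a morphism from `V` to a curve: `M` is the product with
an ample class and `h` is the product with the class of a fibre. With `d = dim V` and `i < d`:
`M ^ (d - 1 - i)` is bijective from `h Hⁱ(V)` to `h H^(2d - 2 - i)(V)`, and `M ^ (d - i)` is
injective on the kernel of `h` modulo the image of `h` in degree `i` -/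
structure RelHard {n : ℕ} (V : W.Var n) (M h : W.Hom V V) : Prop where
  inj : ∀ i, i + 1 ≤ W.dim V → ∀ v, W.InH V i v →
    W.ap (W.pw M (W.dim V - 1 - i)) (W.ap h v) = 0 → W.ap h v = 0
  surj : ∀ i, i + 1 ≤ W.dim V → ∀ v, W.InH V (2 * W.dim V - 2 - i) v →
    ∃ u, W.InH V i u ∧ W.ap (W.pw M (W.dim V - 1 - i)) (W.ap h u) = W.ap h v
  mid : ∀ i, i + 1 ≤ W.dim V → ∀ v, W.InH V i v → W.ap h v = 0 →
    ∀ u, W.ap (W.pw M (W.dim V - i)) v = W.ap h u →
    ∃ u', (∀ a, u' a ≠ 0 → W.deg V a + 2 = i) ∧ v = W.ap h u'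

/-- a smooth projective family over an open subset of a curve `S` over `F n`, with a relatively
ample line bundle: `X`, over `F (n + 1)`, is its geometric generic fibre, with the ample class `L`;
`X₀` is the fibre over a general point of `S`; `s` is the specialisation isomorphism from `H(X)`
to `H(X₀)`, and `s'` is its inverse; `mon` is the monodromy group -/
structure Family {n : ℕ} (X : W.Var (n + 1)) (L : W.Hom X X) where
  X₀ : W.Var n
  s : W.Hom X X₀
  s' : W.Hom X₀ X
  mon : Set (W.Hom X X)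
  dim_eq : W.dim X₀ = W.dim X
  left_inv : W.comp s' s = W.id X
  right_inv : W.comp s s' = W.id X₀
  s_deg : W.HasDeg 0 s
  s_Lef : W.comp (W.comp s L) s' ∈ W.Lef X₀
  mon_prop : ∀ g ∈ mon, IsUnit g ∧ W.HasDeg 0 g ∧ W.comp g L = W.comp L g

/-- `V` is a smooth projective variety with a morphism to a curve, `M` is the product with an ample
class and `h` is the product with the class of a fibre -/
structure Fibred {n : ℕ} (V : W.Var n) (M h : W.Hom V V) : Prop where
  ample : M ∈ W.Lef V
  mem : h ∈ W.cyc V V 1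
  comm : W.comp h M = W.comp M h
  sq_eq : W.comp h h = 0
  rel : W.RelHard V M h

/-- `V`, over `F n`, is a smooth projective variety with a morphism to the curve `S` of the family
`D` and with a generically finite morphism `a` over `S` to (a compactification of) the fibre product
of the family with itself over `S`; `M` is ample on `V` and `h` is the product with the class of
the fibre of `V`; `j` is the restriction to the geometric generic fibre of `V` followed by the
push-forward to `X × X`, divided by the degree of `a`; `k` is the pull-back from `X₀ × X₀` to the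
fibre of `V` followed by the Gysin map. The last property is the theorem of the fixed part -/
structure Square {n : ℕ} {X : W.Var (n + 1)} {L : W.Hom X X} (D : W.Family X L)
    (V : W.Var n) where
  M : W.Hom V V
  h : W.Hom V V
  j : W.H V → W.Hom X X
  k : W.Hom D.X₀ D.X₀ → W.H V
  dim_eq : W.dim V = 2 * W.dim X + 1
  fib : W.Fibred V M h
  j_lin : IsLinearMap K j
  k_lin : IsLinearMap K k
  j_alg : ∀ (r : ℤ) (u : W.H V), u ∈ W.alg V r → j u ∈ W.cyc X X (r - W.dim X)
  k_alg : ∀ (r : ℤ) (f : W.Hom D.X₀ D.X₀), f ∈ W.cyc D.X₀ D.X₀ (r - W.dim X) →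
    k f ∈ W.alg V (r + 1)
  j_zero : ∀ u : W.H V, W.ap h u = 0 → j u = 0
  fixed : ∀ (r : ℕ) (f : W.Hom X X), W.HasDeg ((r : ℤ) - W.dim X) f →
    (∀ g ∈ D.mon, W.comp g f = W.comp f g) →
    ∃ w, W.InH V (2 * r) w ∧ j w = f ∧ W.ap h w = k (W.comp (W.comp D.s f) D.s')

/-- every variety over `F (n + 1)`, with an ample line bundle, is the geometric generic fibre of a
family over a curve over `F n`, and the fibre square of the family is dominated by a smooth
projective variety -/
def Models : Prop := ∀ (n : ℕ) (X : W.Var (n + 1)), ∀ L ∈ W.Lef X,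
  ∃ (D : W.Family X L) (V : W.Var n), Nonempty (W.Square D V)

end Weil

end Pool.Agent.H64.CB
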