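import Mathlib
import Pool.Agent.H64.CB.Weil
import Pool.Agent.H64.CB.Main

/-!
# The theorem for `Weil`
-/

set_option autoImplicit false

open Matrix

namespace Pool.Agent.H64.CB

variable {K : Type} [Field K] [CharZero K]

section

variable (W : Weil K) (h : W.Theory)

/-- the projective spaces -/
noncomputable def PP (r : ℕ) : W.Var 0 := (h.projective r).choose

/-- the unit -/
noncomputable def uu (r : ℕ) : W.H (PP W h r) := (h.projective r).choose_spec.choose

/-- the degree -/
noncomputable def tt (r : ℕ) : W.H (PP W h r) := (h.projective r).choose_spec.choose_spec.choose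

/-- the hyperplane -/
noncomputable def hh (r : ℕ) : W.Hom (PP W h r) (PP W h r) :=
  (h.projective r).choose_spec.choose_spec.choose_spec.choose

theorem proj_spec (r : ℕ) : W.IsProjective r (PP W h r) (uu W h r) (tt W h r) (hh W h r) :=
  (h.projective r).choose_spec.choose_spec.choose_spec.choose_spec

/-- the theory in the first form -/
noncomputable def toTheory : Theory K where
  Var := W.Var
  dim := W.dim
  rk := W.rk
  deg := W.deg
  alg := W.alg
  cyc := W.cyc
  Lef := W.Lef
  prod := W.prod
  pr := W.pr
  deg_le := h.calculus.deg_le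
  alg_deg := h.calculus.alg_deg
  cyc_deg := h.calculus.cyc_deg
  one_mem := h.calculus.one_mem
  mul_mem := h.calculus.comp_mem
  act_mem := h.calculus.ap_mem
  trace_formula := h.calculus.trace_formula
  dim_prod := h.products.dim_prod
  deg_prod := h.products.deg_prod
  kron_mem := h.products.ext_mem
  ptr_right := h.products.ptrRight_mem
  ptr_left := h.products.ptrLeft_mem
  Lef_nonempty := h.lefschetz.nonempty
  Lef_mem := h.lefschetz.mem
  hard_inj := h.lefschetz.inj
  hard_surj := fun X L hL i hi v hv => h.lefschetz.surj X L hL i hi v (fun a ha => by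
    have := hv a ha
    omega)
  Lef_prod := h.lefschetz.box_mem
  kunneth := h.katzMessing
  P := PP W h
  unit := uu W h
  degree := tt W h
  hyp := hh W h
  dim_P := fun r => (proj_spec W h r).dim_eq
  hyp_mem := fun r => (proj_spec W h r).mem
  hyp_pow := fun r => (proj_spec W h r).pow_eq
  degree_pow := fun r l hl => (proj_spec W h r).degree_eq l hl
  pull_mem := fun Z r => (proj_spec W h r).pull_mem Z
  push_mem := fun Z r => (proj_spec W h r).push_mem Z

theorem gs_to {m : ℕ} (V : W.Var 0) (L : W.Hom V V) (T : W.Var m)
    (S : Nonempty (W.GenericSection V L T)) : Nonempty ((toTheory W h).GenericSection V L T) := by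
  obtain ⟨S⟩ := S
  exact ⟨{ N := S.N
           up := S.up
           down := S.down
           Gal := S.Gal
           N_pos := S.N_pos
           dim_eq := S.dim_eq
           up_deg := S.up_deg
           down_deg := S.down_deg
           down_up := by
            have := S.down_up
            rw [Weil.rat, Rat.cast_natCast] at this
            exact this
           weak := S.weak
           vanishing := S.vanishing
           Gal_deg := S.Gal_deg
           cycles := S.cycles }⟩

theorem gs_from {m : ℕ} (V : W.Var 0) (L : W.Hom V V) (T : W.Var m)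
    (S : Nonempty ((toTheory W h).GenericSection V L T)) : Nonempty (W.GenericSection V L T) := by
  obtain ⟨S⟩ := S
  exact ⟨{ N := S.N
           up := S.up
           down := S.down
           Gal := S.Gal
           N_pos := S.N_pos
           dim_eq := S.dim_eq
           up_deg := S.up_deg
           down_deg := S.down_deg
           down_up := by
            have := S.down_up
            rw [Weil.rat, Rat.cast_natCast]
            exact this
           weak := S.weak
           vanishing := S.vanishing
           Gal_deg := S.Gal_deg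
           cycles := S.cycles }⟩

theorem models_to (hM : W.Models) : (toTheory W h).Models := by
  intro n X L hL
  obtain ⟨D, V, ⟨S⟩⟩ := hM n X L hL
  exact ⟨{ X₀ := D.X₀
           V := V
           s := D.s
           s' := D.s'
           mon := D.mon
           M := S.M
           h := S.h
           j := S.j_lin.mk' S.j
           k := S.k_lin.mk' S.k
           dim_X₀ := D.dim_eq
           dim_V := S.dim_eq
           left_inv := D.left_inv
           right_inv := D.right_inv
           s_deg := D.s_deg
           s_Lef := D.s_Lef
           mon_prop := D.mon_prop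
           M_mem := S.fib.ample
           h_mem := S.fib.mem
           comm := S.fib.comm
           h_sq := S.fib.sq_eq
           rel := ⟨S.fib.rel.inj, S.fib.rel.surj, S.fib.rel.mid⟩
           j_alg := S.j_alg
           k_alg := S.k_alg
           j_zero := S.j_zero
           fixed := S.fixed }⟩

include h in
/-- **The theorem.** -/
theorem main' (hS : W.Sections) (hM : W.Models) :
    List.TFAE [
      ∀ (n : ℕ) (X : W.Var n), W.Cplus X,
      ∀ Z : W.Var 0, W.SignSquare Z,
      ∀ Z : W.Var 0, W.B Z,
      ∀ Z : W.Var 0, W.Nontriv Z,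
      ∀ (n : ℕ) (X : W.Var n), W.C X ∧ W.B X] := by
  have hS' : (toTheory W h).Sections := by
    intro V hV L hL
    obtain ⟨m, T, hT⟩ := hS V hV L hL
    exact ⟨m, T, gs_to W h V L T hT⟩
  have h0 := main (toTheory W h) hS' (models_to W h hM)
  have e1 : (∀ (n : ℕ) (X : (toTheory W h).Var n), (toTheory W h).Cplus X) ↔
      ∀ (n : ℕ) (X : W.Var n), W.Cplus X := Iff.rfl
  have e3 : (∀ Z : (toTheory W h).Var 0, (toTheory W h).B Z) ↔ ∀ Z : W.Var 0, W.B Z := Iff.rfl
  have e5 : (∀ (n : ℕ) (X : (toTheory W h).Var n), (toTheory W h).C X ∧ (toTheory W h).B X) ↔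
      ∀ (n : ℕ) (X : W.Var n), W.C X ∧ W.B X := Iff.rfl
  tfae_have 1 → 2 := fun H Z L _ m T _ => H m T
  tfae_have 2 → 1 := by
    intro H
    refine e1.1 ((h0.out 0 1).2 ?_)
    intro Z L hL m T hT
    exact H Z L hL m T (gs_from W h _ _ T hT)
  tfae_have 1 ↔ 3 := e1.symm.trans ((h0.out 0 2).trans e3)
  tfae_have 1 ↔ 5 := e1.symm.trans ((h0.out 0 4).trans e5)
  tfae_have 1 → 4 := by
    intro H Z L hL i hi e he
    have h14 := h0.out 0 3
    exact (h14.1 (e1.2 H)) Z L hL i hi e he.1 he.2.1 he.2.2.1 he.2.2.2.1 he.2.2.2.2
  tfae_have 4 → 1 := by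
    intro H
    refine e1.1 ((h0.out 0 3).2 ?_)
    intro Z L hL i hi e he h1 h2 h3 h4
    exact H Z L hL i hi e ⟨he, h1, h2, h3, h4⟩
  tfae_finish

end

end Pool.Agent.H64.CB
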